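import Pool.Agent.Lib.MP_ae5b4e_an_M0.Bd
import Pool.Agent.Lib.MP_ae5b4e_an_BS.NoBdd
import Pool.Agent.Lib.MP_ae5b4e_an_N5.Defs

/-!
# MP_ae5b4e_an, part M0: a boundary line of linear height does not exist
-/

noncomputable section

namespace Pool.Agent.MP_ae5b4e_an_M0

open Complex Set Filter Topology Metric
open Pool.Agent.MP_ae5b4e_an_NBT
open Pool.Agent.MP_ae5b4e_an_NB2 (Sys exists_sys_of_lu)
open Pool.Agent.MP_ae5b4e_an_NB4H (SysOf)
open Pool.Agent.MP_ae5b4e_an_N5 (VV)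

variable {k : ℂ → ℂ} {F G : ℂ × ℂ → ℂ} {c h : ℝ} {Y : Sys}

theorem exists_sysOf (hN : NBd k F c h G) : ∃ Y : Sys, SysOf Y G h := by
  have hh : 0 < h := hN.pos.trans hN.hc
  obtain ⟨Y, hY, hYF⟩ := exists_sys_of_lu (by linarith : -h < h) (fam_of_nb hN).2
  exact ⟨Y, hY, hYF⟩

/-- linear height is impossible -/
theorem false_of_linear (hN : NBd k F c h G) {M r₁ : ℝ} (hr₁ : 0 < r₁)
    (hM : ∀ ρ : ℂ, ‖ρ‖ < r₁ → h - hgt F c (c / 4) (h + 1) ρ ≤ M * ‖ρ‖) : False := by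
  obtain ⟨Y, hY⟩ := exists_sysOf hN
  obtain ⟨C, hC⟩ := quad_of_height hN hY hr₁ hM
  exact Pool.Agent.MP_ae5b4e_an_BS.no_nbd_bdd hN hY hC

/-- the form needed after the theorem of section N5 -/
theorem false_of_VV (hN : NBd k F c h G) {M r₁ : ℝ} (hr₁ : 0 < r₁)
    (hM : ∀ r, 0 < r → r < r₁ → VV (fun ρ => h - hgt F c (c / 4) (h + 1) ρ) r ≤ M * r) :
    False := by
  have hE := hN.toConE
  have hc := hE.pos
  have hch := hE.hc
  have hb : ∀ ρ ∈ ball (0:ℂ) (c / 4), h - hgt F c (c / 4) (h + 1) ρ ≤ h - c := by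
    intro ρ hρ
    have := le_hgt (merF hE) (by linarith : c ≤ h + 1) hρ
    linarith
  refine false_of_linear hN (M := M) (r₁ := min r₁ (c / 4)) (by positivity) ?_
  intro ρ hρ
  have h1 : ‖ρ‖ < r₁ := hρ.trans_le (min_le_left _ _)
  have h2 : ‖ρ‖ < c / 4 := hρ.trans_le (min_le_right _ _)
  have hbd : ∀ r, r < c / 4 → BddAbove ((fun ρ => h - hgt F c (c / 4) (h + 1) ρ) ''
      closedBall (0:ℂ) r) := by
    rintro r hr
    refine ⟨h - c, ?_⟩
    rintro _ ⟨z, hz, rfl⟩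
    refine hb z ?_
    rw [mem_ball_zero_iff]
    rw [mem_closedBall_zero_iff] at hz
    linarith
  have hle : ∀ r, 0 < r → ‖ρ‖ ≤ r → r < r₁ → r < c / 4 →
      h - hgt F c (c / 4) (h + 1) ρ ≤ M * r := by
    intro r hr hr' hr1 hr2
    refine le_trans (le_csSup (hbd r hr2) ?_) (hM r hr hr1)
    exact ⟨ρ, by simpa using hr', rfl⟩
  -- let `r` tend to `‖ρ‖`
  have hm : ‖ρ‖ < min r₁ (c / 4) := lt_min h1 h2
  have hT : Tendsto (fun r : ℝ => M * r) (𝓝[>] ‖ρ‖) (𝓝 (M * ‖ρ‖)) :=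
    ((continuous_const.mul continuous_id).tendsto _).mono_left nhdsWithin_le_nhds
  refine ge_of_tendsto hT ?_
  filter_upwards [Ioo_mem_nhdsGT hm] with r hr
  exact hle r ((norm_nonneg ρ).trans_lt hr.1) hr.1.le (hr.2.trans_le (min_le_left _ _))
    (hr.2.trans_le (min_le_right _ _))

end Pool.Agent.MP_ae5b4e_an_M0
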