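import Pool.Agent.Lib.MP_ae5b4e_an_M0.JetB
import Pool.Agent.Lib.MP_ae5b4e_an_NB4H.LabX
import Pool.Agent.Lib.MP_ae5b4e_an_LAT.NDPropag
import Pool.Agent.Lib.MP_ae5b4e_an_NBT.CliA

/-!
# MP_ae5b4e_an, part M0: linear height gives a bounded Schwarzian
-/

noncomputable section

namespace Pool.Agent.MP_ae5b4e_an_M0

open Complex Set Filter Topology Metric
open Pool.Agent.MP_ae5b4e_an_NBT
open Pool.Agent.MP_ae5b4e_an_NB2 (Sys)
open Pool.Agent.MP_ae5b4e_an_NB4H (SysOf exists_labX nf)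
open scoped ComplexConjugate

variable {k : ℂ → ℂ} {F G : ℂ × ℂ → ℂ} {c h : ℝ} {Y : Sys}

theorem merF (hE : ConE k F c h G) : Mer F (St (-c) c ×ˢ ball 0 (c / 4)) := by
  intro p hp
  have hc := hE.pos
  have hp' : p ∈ St (-c) c ×ˢ ball (0:ℂ) c := ⟨hp.1, ball_subset_ball (by linarith) hp.2⟩
  exact ⟨F, fun _ => 1, hE.an p hp', den_one p, Eventually.of_forall fun q _ => by simp⟩

/-- below the heights the point is in the domain of the label -/
theorem mem_DK_of_hgt (hE : ConE k F c h G) {R y₁ : ℝ} (hR : R ≤ c / 4) {t ρ : ℂ}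
    (hρ : ρ ∈ ball (0:ℂ) R) (h1 : t.im < hgt F c (c / 4) y₁ ρ - |ρ.im|)
    (h2 : -t.im < hgt F c (c / 4) y₁ (conj ρ) - |ρ.im|) : (t, ρ) ∈ DK F c R := by
  have hc := hE.pos
  have hρ4 : ρ ∈ ball (0:ℂ) (c / 4) := ball_subset_ball hR hρ
  have hρ4' : conj ρ ∈ ball (0:ℂ) (c / 4) := by
    rw [mem_ball_zero_iff, RCLike.norm_conj, ← mem_ball_zero_iff]
    exact hρ4
  have key : ∀ (ρ : ℂ) (x : ℝ), ρ ∈ ball (0:ℂ) (c / 4) → x < hgt F c (c / 4) y₁ ρ - |ρ.im| →
      ∃ y, x < y ∧ ExtM (KF F) (c / 2) (c / 4) y ρ := by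
    intro ρ x hρ hx
    obtain ⟨y, hy1, hy2⟩ := exists_between hx
    obtain ⟨z, hz1, hz2⟩ := exists_between (show y + |ρ.im| < hgt F c (c / 4) y₁ ρ by linarith)
    exact ⟨y, hy1, extM_KF hc (by linarith) (merF hE) (extM_of_lt hρ hz2) (by linarith)⟩
  refine ⟨hρ, key ρ t.im hρ4 h1, ?_⟩
  obtain ⟨y, hy1, hy2⟩ := key (conj ρ) (-t.im) hρ4' (by rw [conj_im, abs_neg]; exact h2)
  exact ⟨y, hy1, hy2⟩

/-- the second coefficient of the label -/
def bc (L : ℂ × ℂ → ℂ) (t : ℂ) : ℂ := iteratedDeriv 2 (fun ρ => L (t, ρ) - t) 0 / 2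

/-- the bound of the second coefficient (Borel, Caratheodory, Cauchy) -/
theorem bc_le {L : ℂ × ℂ → ℂ} {t : ℂ} {r d : ℝ} (hr : 0 < r) (hd : d = h - |t.im|) (hd0 : 0 < d)
    (hL : DifferentiableOn ℂ (fun ρ => L (t, ρ)) (ball 0 r)) (hb : ∀ ρ ∈ ball (0:ℂ) r,
      |(L (t, ρ)).im| ≤ h) (h0 : L (t, 0) = t) : ‖bc L t‖ ≤ 8 * d / r ^ 2 := by
  set f : ℂ → ℂ := fun ρ => L (t, ρ) - t with hf
  have hfd : DifferentiableOn ℂ f (ball 0 r) := hL.sub_const t
  have hf0 : f 0 = 0 := by simp [hf, h0]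
  have key : ∀ z ∈ ball (0:ℂ) r, ‖f z‖ ≤ 2 * d * ‖z‖ / (r - ‖z‖) := by
    intro z hz
    rcases le_or_gt 0 t.im with ht | ht
    · have h1 := borelCaratheodory_zero (f := fun ρ => -I * f ρ) (M := d) hd0
        (hfd.const_mul (-I)) (by
          intro ρ hρ
          have h2 := (abs_le.1 (hb ρ hρ)).2
          rw [abs_of_nonneg ht] at hd
          show (-I * f ρ).re ≤ d
          simp only [hf, neg_mul, neg_re, mul_re, I_re, zero_mul, I_im, one_mul, zero_sub, neg_neg,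
            sub_im]
          linarith) hr hz (by simp [hf0])
      rw [norm_mul, norm_neg, norm_I, one_mul] at h1
      exact h1
    · have h1 := borelCaratheodory_zero (f := fun ρ => I * f ρ) (M := d) hd0
        (hfd.const_mul I) (by
          intro ρ hρ
          have h2 := (abs_le.1 (hb ρ hρ)).1
          rw [abs_of_neg ht] at hd
          show (I * f ρ).re ≤ d
          simp only [hf, mul_re, I_re, zero_mul, I_im, one_mul, zero_sub, sub_im]
          linarith) hr hz (by simp [hf0])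
      rw [norm_mul, norm_I, one_mul] at h1
      exact h1
  have h1 : ‖iteratedDeriv 2 f 0‖ ≤ (2).factorial * (2 * d) / (r / 2) ^ 2 := by
    refine norm_iteratedDeriv_le_of_forall_mem_sphere_norm_le 2 (by positivity) ?_ ?_
    · refine (hfd.mono ?_).diffContOnCl_ball (U := ball 0 r) (fun z hz => ?_)
      · exact Subset.rfl
      · rw [mem_closedBall] at hz
        rw [mem_ball]
        linarith
    · intro z hz
      have hz' : ‖z‖ = r / 2 := by simpa using hz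
      refine (key z (by rw [mem_ball_zero_iff, hz']; linarith)).trans (le_of_eq ?_)
      rw [hz']
      field_simp
      ring
  rw [bc, norm_div]
  have h2 : ‖(2:ℂ)‖ = 2 := by simp
  rw [h2, div_le_iff₀ two_pos]
  refine h1.trans (le_of_eq ?_)
  simp only [Nat.factorial]
  field_simp
  ring

/-- the local form of the label -/
theorem exists_B {L : ℂ × ℂ → ℂ} {t₀ : ℂ} (hL : AnalyticAt ℂ L (t₀, 0))
    (h0 : ∀ᶠ s in 𝓝 t₀, L (s, 0) = s) (hev : ∀ᶠ p : ℂ × ℂ in 𝓝 (t₀, 0), L (p.1, -p.2) = L p) :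
    ∃ B : ℂ × ℂ → ℂ, AnalyticAt ℂ B (t₀, 0) ∧
      (∀ᶠ p : ℂ × ℂ in 𝓝 (t₀, 0), L p = p.1 + p.2 ^ 2 * B p) ∧
      ∀ᶠ s in 𝓝 t₀, B (s, 0) = bc L s := by
  have hS : AnalyticAt ℂ (fun p : ℂ × ℂ => L p - p.1) (t₀, 0) := hL.sub analyticAt_fst
  obtain ⟨G₁, hG₁, e₁, z₁⟩ := Pool.Agent.MP_ae5b4e_an_ND.exists_div_y hS (by
    filter_upwards [h0] with s hs
    show L (s, 0) - s = 0
    rw [hs, sub_self])
  have hline : ∀ {P : ℂ × ℂ → Prop}, (∀ᶠ p in 𝓝 ((t₀, 0) : ℂ × ℂ), P p) →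
      ∀ᶠ s in 𝓝 t₀, ∀ᶠ y in 𝓝 (0:ℂ), P (s, y) := by
    intro P hP
    have h1 := hP
    rw [nhds_prod_eq] at h1
    exact h1.curry
  have hev' := hline hev
  have hG0 : ∀ᶠ s in 𝓝 t₀, G₁ (s, 0) = 0 := by
    filter_upwards [z₁, hev'] with s h1 h2
    rw [h1]
    set g : ℂ → ℂ := fun y => L (s, y) - s with hg
    have h3 : (fun y => g (-y)) =ᶠ[𝓝 0] g := by
      filter_upwards [h2] with y hy
      show L (s, -y) - s = L (s, y) - s
      rw [show L (s, -y) = L (s, y) from hy]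
    have h4 : deriv (fun y => g (-y)) 0 = deriv g 0 := h3.deriv_eq
    rw [deriv_comp_neg, neg_zero] at h4
    have h5 : deriv g 0 = 0 := by linear_combination (-1/2 : ℂ) * h4
    exact h5
  obtain ⟨B, hB, e₂, z₂⟩ := Pool.Agent.MP_ae5b4e_an_ND.exists_div_y hG₁ hG0
  have hLB : ∀ᶠ p : ℂ × ℂ in 𝓝 (t₀, 0), L p = p.1 + p.2 ^ 2 * B p := by
    filter_upwards [e₁, e₂] with p h1 h2
    rw [h2] at h1
    linear_combination h1
  refine ⟨B, hB, hLB, ?_⟩
  have hBa : ∀ᶠ s in 𝓝 t₀, AnalyticAt ℂ B (s, 0) := by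
    have h1 : Tendsto (fun s : ℂ => ((s, 0) : ℂ × ℂ)) (𝓝 t₀) (𝓝 (t₀, 0)) := by
      have : Continuous fun s : ℂ => ((s, 0) : ℂ × ℂ) := by fun_prop
      exact this.tendsto t₀
    exact h1.eventually hB.eventually_analyticAt
  filter_upwards [hline hLB, hBa] with s h1 h2
  have hg : AnalyticAt ℂ (fun y => B (s, y)) 0 :=
    AnalyticAt.fun_comp (g := B) (f := fun y : ℂ => ((s, y) : ℂ × ℂ)) h2
      (analyticAt_const.prod analyticAt_id)
  have h3 : (fun ρ => L (s, ρ) - s) =ᶠ[𝓝 0] fun y => y ^ 2 * B (s, y) := by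
    filter_upwards [h1] with y hy
    rw [hy]
    ring
  have h4 : deriv (fun y : ℂ => y ^ 2 * B (s, y)) =ᶠ[𝓝 0]
      fun y => 2 * y * B (s, y) + y ^ 2 * deriv (fun y => B (s, y)) y := by
    filter_upwards [hg.eventually_analyticAt] with y hy
    have := ((hasDerivAt_id y).pow 2).mul hy.differentiableAt.hasDerivAt
    refine (this.congr_deriv ?_).deriv
    simp
  have h5 : HasDerivAt (fun y => 2 * y * B (s, y) + y ^ 2 * deriv (fun y => B (s, y)) y)
      (2 * B (s, 0)) 0 := by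
    have a1 := ((hasDerivAt_id (0:ℂ)).const_mul 2).mul hg.differentiableAt.hasDerivAt
    have a2 := ((hasDerivAt_id (0:ℂ)).pow 2).mul hg.deriv.differentiableAt.hasDerivAt
    refine (a1.add a2).congr_deriv ?_
    simp
  have h6 : iteratedDeriv 2 (fun ρ => L (s, ρ) - s) 0 = 2 * B (s, 0) := by
    rw [iteratedDeriv_succ, iteratedDeriv_one, h3.deriv.deriv_eq, h4.deriv_eq]
    exact h5.deriv
  rw [bc, h6]
  ring

/-- **the second coefficient determines the potential** -/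
theorem bc_Q (hY : Y.On (St (-h) h)) {L : ℂ × ℂ → ℂ} (hL : ∀ t ∈ St (-h) h, AnalyticAt ℂ L (t, 0))
    (h0 : ∀ t ∈ St (-h) h, L (t, 0) = t)
    (hev : ∀ t ∈ St (-h) h, ∀ᶠ p : ℂ × ℂ in 𝓝 (t, 0), L (p.1, -p.2) = L p)
    (hn : ∀ t ∈ St (-h) h, ∀ᶠ p : ℂ × ℂ in 𝓝 (t, 0),
      nf Y (L (p.1 - p.2, p.2)) (L p) (L (p.1 + p.2, p.2)) = 0) :
    AnalyticOnNhd ℂ (bc L) (St (-h) h) ∧
      ∃ κ : ℂ, ∀ t ∈ St (-h) h, Y.Q t = κ - 6 * deriv (bc L) t := by
  have hop := isOpen_St (-h) h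
  have h0' : ∀ t ∈ St (-h) h, ∀ᶠ s in 𝓝 t, L (s, 0) = s := fun t ht => by
    filter_upwards [hop.mem_nhds ht] with s hs
    exact h0 s hs
  have hloc := fun t (ht : t ∈ St (-h) h) => exists_B (hL t ht) (h0' t ht) (hev t ht)
  have han : AnalyticOnNhd ℂ (bc L) (St (-h) h) := by
    intro t ht
    obtain ⟨B, hB, -, h2⟩ := hloc t ht
    have h3 : AnalyticAt ℂ (fun s => B (s, 0)) t :=
      AnalyticAt.fun_comp (g := B) (f := fun s : ℂ => ((s, 0) : ℂ × ℂ)) hB
        (analyticAt_id.prod analyticAt_const)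
    exact h3.congr h2
  have hQ := Q_an hY hop
  have hder : ∀ t ∈ St (-h) h, deriv (deriv (bc L)) t = -(deriv Y.Q t / 6) := by
    intro t ht
    obtain ⟨B, hB, h1, h2⟩ := hloc t ht
    have h3 : (fun s => B (s, 0)) =ᶠ[𝓝 t] bc L := h2
    rw [← h3.deriv.deriv_eq]
    refine jet_Q hop hY ht hB ?_
    have ht0 : ∀ σ : ℂ, Tendsto (fun ρ : ℂ => ((t + σ * ρ, ρ) : ℂ × ℂ)) (𝓝[≠] 0) (𝓝 (t, 0)) := by
      intro σ
      have h2 : Continuous fun ρ : ℂ => ((t + σ * ρ, ρ) : ℂ × ℂ) := by fun_prop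
      have h3 := h2.tendsto 0
      simp only [mul_zero, add_zero] at h3
      exact h3.mono_left nhdsWithin_le_nhds
    filter_upwards [(ht0 0).eventually h1, (ht0 1).eventually h1, (ht0 (-1)).eventually h1,
      (ht0 0).eventually (hn t ht)] with ρ a1 a2 a3 a4
    simp only [zero_mul, add_zero, one_mul, neg_mul, ← sub_eq_add_neg] at a1 a2 a3 a4
    rw [a1, a2, a3] at a4
    exact a4
  refine ⟨han, ?_⟩
  rcases (St (-h) h).eq_empty_or_nonempty with he | ⟨t₁, ht₁⟩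
  · exact ⟨0, fun t ht => by rw [he] at ht; exact absurd ht (notMem_empty t)⟩
  have hd : ∀ t ∈ St (-h) h, HasDerivAt (fun t => Y.Q t + 6 * deriv (bc L) t) 0 t := by
    intro t ht
    have a1 := (hQ t ht).differentiableAt.hasDerivAt
    have a2 := (han.deriv t ht).differentiableAt.hasDerivAt
    refine (a1.add (a2.const_mul 6)).congr_deriv ?_
    rw [hder t ht]
    ring
  refine ⟨Y.Q t₁ + 6 * deriv (bc L) t₁, fun t ht => ?_⟩
  have := hop.is_const_of_deriv_eq_zero (𝕜 := ℂ) (convex_St (-h) h).isPreconnected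
    (f := fun t => Y.Q t + 6 * deriv (bc L) t)
    (fun z hz => (hd z hz).differentiableAt.differentiableWithinAt)
    (fun z hz => (hd z hz).deriv) ht ht₁
  linear_combination this

/-- **(M0)** linear height gives `|Q| d ^ 2` bounded -/
theorem quad_of_height (hN : NBd k F c h G) (hY : SysOf Y G h) {M r₁ : ℝ} (hr₁ : 0 < r₁)
    (hM : ∀ ρ : ℂ, ‖ρ‖ < r₁ → h - hgt F c (c / 4) (h + 1) ρ ≤ M * ‖ρ‖) :
    ∃ C : ℝ, ∀ t ∈ St (-h) h, ‖Y.Q t‖ * (h - |t.im|) ^ 2 ≤ C := by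
  have hE := hN.toConE
  have hh : 0 < h := hE.pos.trans hE.hc
  obtain ⟨R, L, hR0, hR, hLan, hLp, hLz, hLm, -, hLn⟩ := exists_labX hN hY
  have hLat : ∀ t ∈ St (-h) h, AnalyticAt ℂ L (t, 0) := fun t ht => hLan _ (hLm t (abs_lt.2 ht))
  have hLev : ∀ t ∈ St (-h) h, ∀ᶠ p : ℂ × ℂ in 𝓝 (t, 0), L (p.1, -p.2) = L p := by
    intro t ht
    filter_upwards [(isOpen_Dom _ _ _ _).mem_nhds (hLm t (abs_lt.2 ht))] with p hp
    exact (hLp p hp).2.2.1
  obtain ⟨han, κ, hκ⟩ := bc_Q hY.1 hLat (fun t ht => hLz t (abs_lt.2 ht)) hLev hLn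
  -- the radius
  set M' := max M 0 with hM'
  have hM0 : 0 ≤ M' := le_max_right _ _
  obtain ⟨c₀, hc₀, hc1, hc2, hc3⟩ : ∃ c₀ : ℝ, 0 < c₀ ∧ c₀ * h ≤ R ∧ c₀ * h ≤ r₁ ∧
      c₀ * (M' + 1) ≤ 1 := by
    refine ⟨min (R / h) (min (r₁ / h) (1 / (M' + 1))), by positivity, ?_, ?_, ?_⟩
    · calc _ ≤ R / h * h := by gcongr; exact min_le_left _ _
        _ = R := by field_simp
    · calc _ ≤ r₁ / h * h := by
            gcongr
            exact (min_le_right _ _).trans (min_le_left _ _)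
        _ = r₁ := by field_simp
    · calc _ ≤ 1 / (M' + 1) * (M' + 1) := by
            gcongr
            exact (min_le_right _ _).trans (min_le_right _ _)
        _ = 1 := by field_simp
  have hmem : ∀ t ∈ St (-h) h, ∀ ρ : ℂ, ‖ρ‖ < c₀ * (h - |t.im|) → (t, ρ) ∈ DK F c R := by
    intro t ht ρ hρ
    have hab := abs_nonneg t.im
    have hlt : |t.im| < h := abs_lt.2 ht
    have e1 : c₀ * (h - |t.im|) ≤ c₀ * h := by
      have : 0 ≤ c₀ * |t.im| := by positivity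
      linarith
    have e2 : (M' + 1) * ‖ρ‖ < h - |t.im| := by
      have e4 : (M' + 1) * ‖ρ‖ < (M' + 1) * (c₀ * (h - |t.im|)) :=
        mul_lt_mul_of_pos_left hρ (by linarith)
      have e5 : (M' + 1) * (c₀ * (h - |t.im|)) = (c₀ * (M' + 1)) * (h - |t.im|) := by ring
      have e6 : (c₀ * (M' + 1)) * (h - |t.im|) ≤ 1 * (h - |t.im|) := by
        have : 0 ≤ h - |t.im| := by linarith
        gcongr
      linarith
    have e3 : ∀ ρ' : ℂ, ‖ρ'‖ = ‖ρ‖ → h - hgt F c (c / 4) (h + 1) ρ' ≤ M' * ‖ρ‖ := by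
      intro ρ' hρ'
      have h1 := hM ρ' (by rw [hρ']; linarith)
      rw [hρ'] at h1
      refine h1.trans ?_
      have := norm_nonneg ρ
      gcongr
      exact le_max_left _ _
    have h1 := e3 ρ rfl
    have h2 := e3 (conj ρ) (RCLike.norm_conj ρ)
    have h3 := abs_im_le_norm ρ
    have h4 := le_abs_self t.im
    have h5 := neg_abs_le t.im
    exact mem_DK_of_hgt hE hR (by rw [mem_ball_zero_iff]; linarith) (by linarith) (by linarith)
  -- the bound of the second coefficient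
  have hbc : ∀ t ∈ St (-h) h, ‖bc L t‖ ≤ 8 / (c₀ ^ 2 * (h - |t.im|)) := by
    intro t ht
    have hlt : 0 < h - |t.im| := by
      have := abs_lt.2 ht
      linarith
    have h1 := bc_le (L := L) (t := t) (r := c₀ * (h - |t.im|)) (h := h) (by positivity) rfl hlt
      (by
        intro ρ hρ
        rw [mem_ball_zero_iff] at hρ
        have h1 := (hLan _ (hmem t ht ρ hρ)).differentiableAt
        have h2 : DifferentiableAt ℂ (fun y : ℂ => (t, y)) ρ := by fun_prop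
        exact (DifferentiableAt.comp ρ (g := L) (f := fun y : ℂ => (t, y)) h1
          h2).differentiableWithinAt)
      (by
        intro ρ hρ
        rw [mem_ball_zero_iff] at hρ
        exact (hLp _ (hmem t ht ρ hρ)).1.le)
      (hLz t (abs_lt.2 ht))
    refine h1.trans (le_of_eq ?_)
    field_simp
  refine ⟨‖κ‖ * h ^ 2 + 192 / c₀ ^ 2, ?_⟩
  intro t ht
  set d := h - |t.im| with hd
  have hab := abs_nonneg t.im
  have hd0 : 0 < d := by
    have := abs_lt.2 ht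
    linarith
  have hdh : d ≤ h := by linarith
  have hball : closedBall t (d / 2) ⊆ St (-h) h := by
    intro z hz
    rw [mem_closedBall, dist_eq_norm] at hz
    have h1 := (abs_im_le_norm (z - t)).trans hz
    rw [sub_im] at h1
    have h2 := abs_le.1 h1
    have h3 := le_abs_self t.im
    have h4 := neg_abs_le t.im
    exact ⟨by linarith, by linarith⟩
  have h1 : ‖deriv (bc L) t‖ ≤ (16 / (c₀ ^ 2 * d)) / (d / 2) := by
    refine norm_deriv_le_of_forall_mem_sphere_norm_le (by positivity) ?_ ?_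
    · refine DifferentiableOn.diffContOnCl ?_
      rw [closure_ball _ (by positivity)]
      exact fun z hz => (han z (hball hz)).differentiableAt.differentiableWithinAt
    · intro z hz
      have hz' := hball (sphere_subset_closedBall hz)
      refine (hbc z hz').trans ?_
      have h5 : d / 2 ≤ h - |z.im| := by
        have e1 : |z.im - t.im| ≤ d / 2 := by
          have h1 := abs_im_le_norm (z - t)
          rw [mem_sphere, dist_eq_norm] at hz
          rw [sub_im] at h1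
          linarith
        have e2 : |z.im| ≤ |z.im - t.im| + |t.im| := by
          have := abs_add_le (z.im - t.im) t.im
          rwa [sub_add_cancel] at this
        linarith
      calc 8 / (c₀ ^ 2 * (h - |z.im|)) ≤ 8 / (c₀ ^ 2 * (d / 2)) := by gcongr
        _ = 16 / (c₀ ^ 2 * d) := by
          field_simp
          norm_num
  rw [hκ t ht]
  calc ‖κ - 6 * deriv (bc L) t‖ * d ^ 2 ≤ (‖κ‖ + 6 * ((16 / (c₀ ^ 2 * d)) / (d / 2))) * d ^ 2 := by
        have h6 : ‖κ - 6 * deriv (bc L) t‖ ≤ ‖κ‖ + 6 * ((16 / (c₀ ^ 2 * d)) / (d / 2)) := by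
          refine (norm_sub_le _ _).trans ?_
          rw [norm_mul]
          have : ‖(6:ℂ)‖ = 6 := by simp
          rw [this]
          gcongr
        gcongr
    _ = ‖κ‖ * d ^ 2 + 192 / c₀ ^ 2 := by
      field_simp
      ring
    _ ≤ ‖κ‖ * h ^ 2 + 192 / c₀ ^ 2 := by gcongr

end Pool.Agent.MP_ae5b4e_an_M0
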