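import Pool.Agent.Lib.MP_ae5b4e_an_NB2.Sys
import Pool.Agent.Lib.MP_ae5b4e_an_NB5.Est0

/-!
# MP_ae5b4e_an, part M0: the second coefficient of the label and the potential

If `L (s, ρ) = s + ρ ^ 2 B (s, ρ)` satisfies the node relation near `(t, 0)` then
`(B (·, 0))'' = - Q' / 6` at `t`.
-/

noncomputable section

namespace Pool.Agent.MP_ae5b4e_an_M0

open Complex Set Filter Topology Metric
open Pool.Agent.MP_ae5b4e_an_NB2 (Sys)
open Pool.Agent.Lib.MP_ae5b4e_an_LL

variable {Y : Sys} {S : Set ℂ}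

theorem Q_an (hY : Y.On S) (hS : IsOpen S) : AnalyticOnNhd ℂ Y.Q S := by
  intro z hz
  have h1 : AnalyticAt ℂ (fun w => -deriv Y.y1' w * Y.y2' w + deriv Y.y2' w * Y.y1' w) z :=
    ((Sys.an_y1' hY hS).deriv z hz).neg.mul (Sys.an_y2' hY hS z hz) |>.add
      (((Sys.an_y2' hY hS).deriv z hz).mul (Sys.an_y1' hY hS z hz))
  refine h1.congr ?_
  filter_upwards [hS.mem_nhds hz] with w hw
  rw [(hY.d1' w hw).deriv, (hY.d2' w hw).deriv]
  have := hY.wr w hw
  linear_combination (Y.Q w) * this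

/-- the expansions of the kernel on the diagonal -/
theorem expand (hS : IsOpen S) (hY : Y.On S) {t : ℂ} (ht : t ∈ S) :
    ∃ r > 0, ∃ C : ℝ, 0 ≤ C ∧ ∀ l ∈ ball t r, ∀ x ∈ ball (0:ℂ) r,
      ‖Y.s (l + x) l - (x - Y.Q l * x ^ 3 / 6 - deriv Y.Q l * x ^ 4 / 12)‖ ≤ C * ‖x‖ ^ 5 ∧
      ‖Y.c (l + x) l - (1 - Y.Q l * x ^ 2 / 2 - deriv Y.Q l * x ^ 3 / 6)‖ ≤ C * ‖x‖ ^ 4 := by
  have hQ := Q_an hY hS
  obtain ⟨r0, hr0, hb0⟩ := Metric.isOpen_iff.1 hS t ht
  set R := r0 / 2 with hR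
  have hR0 : 0 < R := by positivity
  have hsub : closedBall t R ⊆ S := (closedBall_subset_ball (by rw [hR]; linarith)).trans hb0
  have hbd : ∀ f : ℂ → ℂ, AnalyticOnNhd ℂ f S → ∃ M : ℝ, 0 ≤ M ∧ ∀ z ∈ closedBall t R, ‖f z‖ ≤ M := by
    intro f hf
    obtain ⟨M, hM⟩ := (isCompact_closedBall t R).exists_bound_of_continuousOn
      (hf.continuousOn.mono hsub)
    exact ⟨M, (norm_nonneg _).trans (hM t (mem_closedBall_self hR0.le)), hM⟩
  obtain ⟨M0, hM0, b0⟩ := hbd Y.Q hQ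
  obtain ⟨M1, hM1, b1⟩ := hbd (deriv Y.Q) hQ.deriv
  obtain ⟨M2, hM2, b2⟩ := hbd (deriv (deriv Y.Q)) hQ.deriv.deriv
  -- the radius
  obtain ⟨r, hr, hrR, hr1, hMr⟩ : ∃ r : ℝ, 0 < r ∧ 2 * r ≤ R ∧ r ≤ 1 ∧ M0 * r ^ 2 ≤ 1 / 4 := by
    refine ⟨min (R / 2) (min 1 (1 / (4 * (M0 + 1)))), by positivity, ?_, ?_, ?_⟩
    · have := min_le_left (R / 2) (min 1 (1 / (4 * (M0 + 1))))
      linarith
    · exact (min_le_right _ _).trans (min_le_left _ _)
    · set q := min (R / 2) (min 1 (1 / (4 * (M0 + 1)))) with hq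
      have q0 : 0 ≤ q := by positivity
      have q1 : q ≤ 1 := (min_le_right _ _).trans (min_le_left _ _)
      have q2 : q ≤ 1 / (4 * (M0 + 1)) := (min_le_right _ _).trans (min_le_right _ _)
      have q3 : q ^ 2 ≤ q := by nlinarith
      calc M0 * q ^ 2 ≤ (M0 + 1) * (1 / (4 * (M0 + 1))) := by
            have : q ^ 2 ≤ 1 / (4 * (M0 + 1)) := q3.trans q2
            have h0 : 0 ≤ q ^ 2 := by positivity
            calc M0 * q ^ 2 ≤ (M0 + 1) * q ^ 2 := by nlinarith
              _ ≤ _ := by gcongr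
        _ = 1 / 4 := by field_simp
  refine ⟨r, hr, 2 * M2 + (M0 + M1) * M0, by positivity, ?_⟩
  intro l hl x hx
  have hlr : ball l r ⊆ closedBall t R := by
    intro z hz
    rw [mem_ball] at hz hl
    rw [mem_closedBall]
    calc dist z t ≤ dist z l + dist l t := dist_triangle _ _ _
      _ ≤ R := by linarith
  have hlS : l ∈ S := hsub (hlr (mem_ball_self hr))
  have hlR : l ∈ closedBall t R := hlr (mem_ball_self hr)
  have hYl : Y.On (ball l r) := by
    have h : ball l r ⊆ S := hlr.trans hsub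
    exact ⟨fun z hz => hY.d1 z (h hz), fun z hz => hY.d1' z (h hz), fun z hz => hY.d2 z (h hz),
      fun z hz => hY.d2' z (h hz), fun z hz => hY.wr z (h hz)⟩
  have hlb : l ∈ ball l r := mem_ball_self hr
  -- the basic estimates
  have hE : ∀ z ∈ ball l r, ‖Y.c z l - 1‖ ≤ M0 * ‖z - l‖ ^ 2 ∧
      ‖Y.s z l - (z - l)‖ ≤ M0 * ‖z - l‖ ^ 3 := by
    intro z hz
    rw [mem_ball, dist_eq_norm] at hz
    have h1 : M0 * ‖z - l‖ ^ 2 ≤ 1 / 4 := by
      refine le_trans ?_ hMr
      gcongr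
    have h2 := Pool.Agent.MP_ae5b4e_an_NB5.est_sc (x := z - l) hYl hM0
      (fun z hz => b0 z (hlr hz)) hz h1
    rw [add_sub_cancel] at h2
    exact ⟨h2.1, h2.2.1⟩
  have hQl : ∀ z ∈ ball l r, ‖Y.Q z - Y.Q l - deriv Y.Q l * (z - l)‖ ≤ M2 * ‖z - l‖ ^ 2 := by
    intro z hz
    have h1 : ∀ z ∈ ball l r, HasDerivAt (fun z => Y.Q z - Y.Q l - deriv Y.Q l * (z - l))
        (deriv Y.Q z - deriv Y.Q l) z := by
      intro z hz
      have h := ((hQ z (hsub (hlr hz))).differentiableAt.hasDerivAt.sub_const (Y.Q l)).sub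
        (((hasDerivAt_id z).sub_const l).const_mul (deriv Y.Q l))
      exact h.congr_deriv (by simp)
    have h2 : ∀ z ∈ ball l r, HasDerivAt (fun z => deriv Y.Q z - deriv Y.Q l)
        (deriv (deriv Y.Q) z) z := fun z hz =>
      (hQ.deriv z (hsub (hlr hz))).differentiableAt.hasDerivAt.sub_const _
    have h3 := norm_le_of_deriv2_pow (k := 0) h1 h2 (by simp) (by simp) (A := M2)
      (fun z hz => by simpa using b2 z (hlr hz)) z hz
    refine h3.trans ?_
    have : 0 ≤ M2 * ‖z - l‖ ^ 2 := by positivity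
    norm_num
    linarith
  have hx' : l + x ∈ ball l r := by
    rw [mem_ball, dist_eq_norm, add_sub_cancel_left]
    simpa using hx
  have hqq : ∀ z ∈ ball l r, ‖Y.Q l + deriv Y.Q l * (z - l)‖ ≤ M0 + M1 := by
    intro z hz
    rw [mem_ball, dist_eq_norm] at hz
    calc ‖Y.Q l + deriv Y.Q l * (z - l)‖ ≤ ‖Y.Q l‖ + ‖deriv Y.Q l‖ * ‖z - l‖ := by
          refine (norm_add_le _ _).trans ?_
          rw [norm_mul]
      _ ≤ M0 + M1 * 1 := by
          have := b0 l hlR
          have := b1 l hlR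
          gcongr
          linarith
      _ = M0 + M1 := by ring
  constructor
  · -- the solution `s`
    have h1 : ∀ z ∈ ball l r, HasDerivAt
        (fun z => Y.s z l - ((z - l) - Y.Q l * (z - l) ^ 3 / 6 - deriv Y.Q l * (z - l) ^ 4 / 12))
        (Y.sd z l - (1 - Y.Q l * (z - l) ^ 2 / 2 - deriv Y.Q l * (z - l) ^ 3 / 3)) z := by
      intro z hz
      have e1 : HasDerivAt (fun z : ℂ => z - l) 1 z := (hasDerivAt_id z).sub_const l
      have e2 := (Sys.hasDerivAt_s (l := l) hYl hz).sub ((e1.sub (((e1.pow 3).const_mul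
        (Y.Q l)).div_const 6)).sub (((e1.pow 4).const_mul (deriv Y.Q l)).div_const 12))
      convert! e2 using 1
      ring
    have h2 : ∀ z ∈ ball l r, HasDerivAt
        (fun z => Y.sd z l - (1 - Y.Q l * (z - l) ^ 2 / 2 - deriv Y.Q l * (z - l) ^ 3 / 3))
        (-(Y.Q z - Y.Q l - deriv Y.Q l * (z - l)) * Y.s z l -
          (Y.Q l + deriv Y.Q l * (z - l)) * (Y.s z l - (z - l))) z := by
      intro z hz
      have e1 : HasDerivAt (fun z : ℂ => z - l) 1 z := (hasDerivAt_id z).sub_const l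
      have e2 := (Sys.hasDerivAt_sd (l := l) hYl hz).sub (((hasDerivAt_const z (1:ℂ)).sub
        (((e1.pow 2).const_mul (Y.Q l)).div_const 2)).sub
        (((e1.pow 3).const_mul (deriv Y.Q l)).div_const 3))
      convert! e2 using 1
      ring
    have h3 := norm_le_of_deriv2_pow (k := 3) h1 h2 (by simp [Sys.s_self])
      (by simp [Sys.sd_self hYl hlb]) (A := 2 * M2 + (M0 + M1) * M0) (by
        intro z hz
        obtain ⟨g1, g2⟩ := hE z hz
        have g3 := hQl z hz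
        have g4 := hqq z hz
        have g5 : ‖Y.s z l‖ ≤ 2 * ‖z - l‖ := by
          have e1 : ‖Y.s z l‖ ≤ ‖Y.s z l - (z - l)‖ + ‖z - l‖ := by
            have := norm_add_le (Y.s z l - (z - l)) (z - l)
            rwa [sub_add_cancel] at this
          have e2 : M0 * ‖z - l‖ ^ 3 ≤ ‖z - l‖ := by
            have e3 : ‖z - l‖ ≤ r := by
              rw [mem_ball, dist_eq_norm] at hz
              exact hz.le
            have e4 : M0 * ‖z - l‖ ^ 2 ≤ 1 / 4 := by
              refine le_trans ?_ hMr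
              gcongr
            calc M0 * ‖z - l‖ ^ 3 = (M0 * ‖z - l‖ ^ 2) * ‖z - l‖ := by ring
              _ ≤ 1 / 4 * ‖z - l‖ := by gcongr
              _ ≤ ‖z - l‖ := by linarith [norm_nonneg (z - l)]
          linarith
        calc ‖-(Y.Q z - Y.Q l - deriv Y.Q l * (z - l)) * Y.s z l -
              (Y.Q l + deriv Y.Q l * (z - l)) * (Y.s z l - (z - l))‖
            ≤ ‖Y.Q z - Y.Q l - deriv Y.Q l * (z - l)‖ * ‖Y.s z l‖ +
              ‖Y.Q l + deriv Y.Q l * (z - l)‖ * ‖Y.s z l - (z - l)‖ := by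
              refine (norm_sub_le _ _).trans ?_
              rw [norm_mul, norm_mul, norm_neg]
          _ ≤ (M2 * ‖z - l‖ ^ 2) * (2 * ‖z - l‖) + (M0 + M1) * (M0 * ‖z - l‖ ^ 3) := by
              gcongr
          _ = (2 * M2 + (M0 + M1) * M0) * ‖z - l‖ ^ 3 := by ring) (l + x) hx'
    simp only [add_sub_cancel_left] at h3
    refine h3.trans ?_
    have h4 : 0 ≤ (2 * M2 + (M0 + M1) * M0) * ‖x‖ ^ 5 := by positivity
    norm_num
    linarith
  · -- the solution `c`
    have h1 : ∀ z ∈ ball l r, HasDerivAt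
        (fun z => Y.c z l - (1 - Y.Q l * (z - l) ^ 2 / 2 - deriv Y.Q l * (z - l) ^ 3 / 6))
        (Y.cd z l - (0 - Y.Q l * (z - l) - deriv Y.Q l * (z - l) ^ 2 / 2)) z := by
      intro z hz
      have e1 : HasDerivAt (fun z : ℂ => z - l) 1 z := (hasDerivAt_id z).sub_const l
      have e2 := (Sys.hasDerivAt_c (l := l) hYl hz).sub (((hasDerivAt_const z (1:ℂ)).sub
        (((e1.pow 2).const_mul (Y.Q l)).div_const 2)).sub
        (((e1.pow 3).const_mul (deriv Y.Q l)).div_const 6))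
      convert! e2 using 1
      ring
    have h2 : ∀ z ∈ ball l r, HasDerivAt
        (fun z => Y.cd z l - (0 - Y.Q l * (z - l) - deriv Y.Q l * (z - l) ^ 2 / 2))
        (-(Y.Q z - Y.Q l - deriv Y.Q l * (z - l)) * Y.c z l -
          (Y.Q l + deriv Y.Q l * (z - l)) * (Y.c z l - 1)) z := by
      intro z hz
      have e1 : HasDerivAt (fun z : ℂ => z - l) 1 z := (hasDerivAt_id z).sub_const l
      have e2 := (Sys.hasDerivAt_cd (l := l) hYl hz).sub (((hasDerivAt_const z (0:ℂ)).sub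
        (e1.const_mul (Y.Q l))).sub (((e1.pow 2).const_mul (deriv Y.Q l)).div_const 2))
      convert! e2 using 1
      ring
    have h3 := norm_le_of_deriv2_pow (k := 2) h1 h2 (by simp [Sys.c_self hYl hlb])
      (by simp [Sys.cd_self]) (A := 2 * M2 + (M0 + M1) * M0) (by
        intro z hz
        obtain ⟨g1, g2⟩ := hE z hz
        have g3 := hQl z hz
        have g4 := hqq z hz
        have g5 : ‖Y.c z l‖ ≤ 2 := by
          have e1 : ‖Y.c z l‖ ≤ ‖Y.c z l - 1‖ + ‖(1:ℂ)‖ := by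
            have := norm_add_le (Y.c z l - 1) 1
            rwa [sub_add_cancel] at this
          have e3 : ‖z - l‖ ≤ r := by
            rw [mem_ball, dist_eq_norm] at hz
            exact hz.le
          have e4 : M0 * ‖z - l‖ ^ 2 ≤ 1 / 4 := by
            refine le_trans ?_ hMr
            gcongr
          rw [norm_one] at e1
          linarith
        calc ‖-(Y.Q z - Y.Q l - deriv Y.Q l * (z - l)) * Y.c z l -
              (Y.Q l + deriv Y.Q l * (z - l)) * (Y.c z l - 1)‖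
            ≤ ‖Y.Q z - Y.Q l - deriv Y.Q l * (z - l)‖ * ‖Y.c z l‖ +
              ‖Y.Q l + deriv Y.Q l * (z - l)‖ * ‖Y.c z l - 1‖ := by
              refine (norm_sub_le _ _).trans ?_
              rw [norm_mul, norm_mul, norm_neg]
          _ ≤ (M2 * ‖z - l‖ ^ 2) * 2 + (M0 + M1) * (M0 * ‖z - l‖ ^ 2) := by
              gcongr
          _ = (2 * M2 + (M0 + M1) * M0) * ‖z - l‖ ^ 2 := by ring) (l + x) hx'
    simp only [add_sub_cancel_left] at h3
    refine h3.trans ?_
    have h4 : 0 ≤ (2 * M2 + (M0 + M1) * M0) * ‖x‖ ^ 4 := by positivity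
    norm_num
    linarith

end Pool.Agent.MP_ae5b4e_an_M0
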