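import Pool.Agent.Lib.MP_ae5b4e_an_M0.Jet

/-!
# MP_ae5b4e_an, part M0: the second coefficient of the label and the potential
-/

noncomputable section

namespace Pool.Agent.MP_ae5b4e_an_M0

open Complex Set Filter Topology Metric
open Pool.Agent.MP_ae5b4e_an_NB2 (Sys)
open Pool.Agent.Lib.MP_ae5b4e_an_LL

variable {Y : Sys} {S : Set ℂ}

/-- the derivative in the first variable -/
def D1 (f : ℂ × ℂ → ℂ) (p : ℂ × ℂ) : ℂ := fderiv ℂ f p (1, 0)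

theorem an_D1 {f : ℂ × ℂ → ℂ} {p : ℂ × ℂ} (hf : AnalyticAt ℂ f p) : AnalyticAt ℂ (D1 f) p := by
  have h1 := hf.fderiv
  exact (ContinuousLinearMap.analyticAt (ContinuousLinearMap.apply ℂ ℂ ((1:ℂ), (0:ℂ))) _).comp h1

theorem hasDerivAt_D1 {f : ℂ × ℂ → ℂ} {s ρ : ℂ} (hf : AnalyticAt ℂ f (s, ρ)) :
    HasDerivAt (fun s => f (s, ρ)) (D1 f (s, ρ)) s := by
  have h1 : HasDerivAt (fun s : ℂ => ((s, ρ) : ℂ × ℂ)) (1, 0) s :=
    (hasDerivAt_id s).prodMk (hasDerivAt_const s ρ)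
  exact hf.differentiableAt.hasFDerivAt.comp_hasDerivAt s h1

/-- the second difference -/
theorem tendsto_secdiff {B : ℂ × ℂ → ℂ} {t : ℂ} (hB : AnalyticAt ℂ B (t, 0)) :
    Tendsto (fun ρ : ℂ => (B (t + ρ, ρ) + B (t - ρ, ρ) - 2 * B (t, ρ)) / ρ ^ 2) (𝓝[≠] 0)
      (𝓝 (deriv (deriv fun s => B (s, 0)) t)) := by
  have hev := hB.eventually_analyticAt
  obtain ⟨r, hr, hb⟩ := Metric.eventually_nhds_iff_ball.1 hev
  -- the second derivative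
  have hβ : deriv (deriv fun s => B (s, 0)) t = D1 (D1 B) (t, 0) := by
    have h1 : (deriv fun s => B (s, 0)) =ᶠ[𝓝 t] fun s => D1 B (s, 0) := by
      filter_upwards [ball_mem_nhds t hr] with s hs
      have hs' : ((s, 0) : ℂ × ℂ) ∈ ball ((t, 0) : ℂ × ℂ) r := by
        rw [mem_ball, Prod.dist_eq, max_lt_iff]
        exact ⟨hs, by simpa using hr⟩
      exact (hasDerivAt_D1 (hb _ hs')).deriv
    rw [h1.deriv_eq]
    exact (hasDerivAt_D1 (an_D1 hB)).deriv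
  rw [hβ]
  set β := D1 (D1 B) (t, 0) with hβd
  rw [Metric.tendsto_nhds]
  intro ε hε
  have hc : ContinuousAt (D1 (D1 B)) (t, 0) := (an_D1 (an_D1 hB)).continuousAt
  obtain ⟨δ₁, hδ₁, hc1⟩ := Metric.continuousAt_iff.1 hc (ε / 4) (by positivity)
  set δ := min δ₁ r with hδ
  have hδ0 : 0 < δ := lt_min hδ₁ hr
  have hmem : ∀ ρ ∈ ball (0:ℂ) δ, ∀ x ∈ ball (0:ℂ) δ, ∀ σ : ℂ, ‖σ‖ ≤ 1 →
      AnalyticAt ℂ B (t + σ * x, ρ) ∧ ‖D1 (D1 B) (t + σ * x, ρ) - β‖ < ε / 4 := by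
    intro ρ hρ x hx σ hσ
    have e : dist ((t + σ * x, ρ) : ℂ × ℂ) (t, 0) < δ := by
      rw [Prod.dist_eq, max_lt_iff]
      refine ⟨?_, hρ⟩
      show dist (t + σ * x) t < δ
      rw [dist_eq_norm, add_sub_cancel_left, norm_mul]
      have h1 : ‖x‖ < δ := by simpa using hx
      calc ‖σ‖ * ‖x‖ ≤ 1 * ‖x‖ := by gcongr
        _ = ‖x‖ := one_mul _
        _ < δ := h1
    refine ⟨hb _ (lt_of_lt_of_le e (min_le_right _ _)), ?_⟩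
    have := hc1 (lt_of_lt_of_le e (min_le_left _ _))
    rwa [dist_eq_norm] at this
  have key : ∀ ρ ∈ ball (0:ℂ) δ,
      ‖B (t + ρ, ρ) + B (t - ρ, ρ) - 2 * B (t, ρ) - ρ ^ 2 * β‖ ≤ ε / 2 * ‖ρ‖ ^ 2 / 2 := by
    intro ρ hρ
    have h1 : ∀ x ∈ ball (0:ℂ) δ, HasDerivAt
        (fun x => B (t + x, ρ) + B (t - x, ρ) - 2 * B (t, ρ) - x ^ 2 * β)
        (D1 B (t + x, ρ) - D1 B (t - x, ρ) - 2 * x * β) x := by
      intro x hx
      have a1 := (hmem ρ hρ x hx 1 (by simp)).1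
      have a2 := (hmem ρ hρ x hx (-1) (by simp)).1
      have e2 : t + (-1) * x = t - x := by ring
      rw [one_mul] at a1
      rw [e2] at a2
      have d1 : HasDerivAt (fun x => B (t + x, ρ)) (D1 B (t + x, ρ)) x := by
        have h := HasDerivAt.comp (h₂ := fun s => B (s, ρ)) x (hasDerivAt_D1 a1)
          ((hasDerivAt_id x).const_add t)
        exact h.congr_deriv (by simp)
      have d2 : HasDerivAt (fun x => B (t - x, ρ)) (-D1 B (t - x, ρ)) x := by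
        have h := HasDerivAt.comp (h₂ := fun s => B (s, ρ)) x (hasDerivAt_D1 a2)
          ((hasDerivAt_id x).const_sub t)
        exact h.congr_deriv (by simp)
      have d3 := ((d1.add d2).sub_const (2 * B (t, ρ))).sub
        (((hasDerivAt_id x).pow 2).mul_const β)
      convert! d3 using 1
      simp
      ring
    have h2 : ∀ x ∈ ball (0:ℂ) δ, HasDerivAt
        (fun x => D1 B (t + x, ρ) - D1 B (t - x, ρ) - 2 * x * β)
        ((D1 (D1 B) (t + x, ρ) - β) + (D1 (D1 B) (t - x, ρ) - β)) x := by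
      intro x hx
      have a1 := (hmem ρ hρ x hx 1 (by simp)).1
      have a2 := (hmem ρ hρ x hx (-1) (by simp)).1
      have e2 : t + (-1) * x = t - x := by ring
      rw [one_mul] at a1
      rw [e2] at a2
      have d1 : HasDerivAt (fun x => D1 B (t + x, ρ)) (D1 (D1 B) (t + x, ρ)) x := by
        have h := HasDerivAt.comp (h₂ := fun s => D1 B (s, ρ)) x (hasDerivAt_D1 (an_D1 a1))
          ((hasDerivAt_id x).const_add t)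
        exact h.congr_deriv (by simp)
      have d2 : HasDerivAt (fun x => D1 B (t - x, ρ)) (-D1 (D1 B) (t - x, ρ)) x := by
        have h := HasDerivAt.comp (h₂ := fun s => D1 B (s, ρ)) x (hasDerivAt_D1 (an_D1 a2))
          ((hasDerivAt_id x).const_sub t)
        exact h.congr_deriv (by simp)
      have d3 := (d1.sub d2).sub (((hasDerivAt_id x).const_mul 2).mul_const β)
      convert! d3 using 1
      simp
      ring
    have h3 := norm_le_of_deriv2_pow (k := 0) h1 h2 (by simp; ring) (by simp) (A := ε / 2) (by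
      intro x hx
      have a1 := (hmem ρ hρ x hx 1 (by simp)).2
      have a2 := (hmem ρ hρ x hx (-1) (by simp)).2
      have e2 : t + (-1) * x = t - x := by ring
      rw [one_mul] at a1
      rw [e2] at a2
      rw [pow_zero, mul_one]
      refine (norm_add_le _ _).trans ?_
      linarith) ρ hρ
    simp only [sub_zero] at h3
    refine h3.trans (le_of_eq ?_)
    norm_num
  have hne : ∀ᶠ ρ : ℂ in 𝓝[≠] 0, ρ ≠ 0 := eventually_mem_nhdsWithin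
  have hball : ∀ᶠ ρ : ℂ in 𝓝[≠] 0, ρ ∈ ball (0:ℂ) δ := nhdsWithin_le_nhds (ball_mem_nhds 0 hδ0)
  filter_upwards [hne, hball] with ρ h0 h1
  have h2 := key ρ h1
  rw [dist_eq_norm]
  have h3 : (B (t + ρ, ρ) + B (t - ρ, ρ) - 2 * B (t, ρ)) / ρ ^ 2 - β =
      (B (t + ρ, ρ) + B (t - ρ, ρ) - 2 * B (t, ρ) - ρ ^ 2 * β) / ρ ^ 2 := by
    field_simp
  have h4 : 0 < ‖ρ‖ := norm_pos_iff.2 h0
  rw [h3, norm_div, norm_pow, div_lt_iff₀ (by positivity)]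
  have h5 : 0 < ‖ρ‖ ^ 2 := by positivity
  nlinarith

/-- **the second coefficient of the label** -/
theorem jet_Q (hS : IsOpen S) (hY : Y.On S) {t : ℂ} (ht : t ∈ S) {B : ℂ × ℂ → ℂ}
    (hB : AnalyticAt ℂ B (t, 0))
    (hn : ∀ᶠ ρ : ℂ in 𝓝[≠] 0, Y.node (t + ρ ^ 2 * B (t, ρ)) (t + ρ + ρ ^ 2 * B (t + ρ, ρ))
      (t - ρ + ρ ^ 2 * B (t - ρ, ρ))) :
    deriv (deriv fun s => B (s, 0)) t = -(deriv Y.Q t / 6) := by
  obtain ⟨r, hr, C, hC, hexp⟩ := expand hS hY ht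
  have hQ := Q_an hY hS
  set β := deriv (deriv fun s => B (s, 0)) t with hβ
  -- the functions
  set l : ℂ → ℂ := fun ρ => t + ρ ^ 2 * B (t, ρ) with hl
  set bp : ℂ → ℂ := fun ρ => B (t + ρ, ρ) - B (t, ρ) with hbp
  set bm : ℂ → ℂ := fun ρ => B (t - ρ, ρ) - B (t, ρ) with hbm
  set e : ℂ → ℂ := fun ρ => (B (t + ρ, ρ) + B (t - ρ, ρ) - 2 * B (t, ρ)) / ρ ^ 2 with he
  set uu : ℂ → ℂ := fun ρ => 1 + ρ * bp ρ with huu
  set vv : ℂ → ℂ := fun ρ => 1 - ρ * bm ρ with hvv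
  have hlim : ∀ σ : ℂ, Tendsto (fun ρ : ℂ => B (t + σ * ρ, ρ)) (𝓝[≠] 0) (𝓝 (B (t, 0))) := by
    intro σ
    have h1 : Tendsto (fun ρ : ℂ => ((t + σ * ρ, ρ) : ℂ × ℂ)) (𝓝[≠] 0) (𝓝 (t, 0)) := by
      have h2 : Continuous fun ρ : ℂ => ((t + σ * ρ, ρ) : ℂ × ℂ) := by fun_prop
      have h3 := h2.tendsto 0
      simp only [mul_zero, add_zero] at h3
      exact h3.mono_left nhdsWithin_le_nhds
    exact hB.continuousAt.tendsto.comp h1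
  have hid : Tendsto (fun ρ : ℂ => ρ) (𝓝[≠] (0:ℂ)) (𝓝 0) :=
    tendsto_id.mono_left nhdsWithin_le_nhds
  have L0 : Tendsto (fun ρ : ℂ => B (t, ρ)) (𝓝[≠] 0) (𝓝 (B (t, 0))) := by
    simpa using hlim 0
  have L1 : Tendsto bp (𝓝[≠] 0) (𝓝 0) := by
    have := (hlim 1).sub L0
    simpa [hbp] using this
  have L2 : Tendsto bm (𝓝[≠] 0) (𝓝 0) := by
    have := (hlim (-1)).sub L0
    simpa [hbm, sub_eq_add_neg] using this
  have Lu : Tendsto uu (𝓝[≠] 0) (𝓝 1) := by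
    have := (hid.mul L1).const_add 1
    simpa using this
  have Lv : Tendsto vv (𝓝[≠] 0) (𝓝 1) := by
    have := (hid.mul L2).const_sub 1
    simpa using this
  have Le : Tendsto e (𝓝[≠] 0) (𝓝 β) := tendsto_secdiff hB
  have Ll : Tendsto l (𝓝[≠] 0) (𝓝 t) := by
    have := ((hid.pow 2).mul L0).const_add t
    simpa using this
  have Lq : Tendsto (fun ρ => Y.Q (l ρ)) (𝓝[≠] 0) (𝓝 (Y.Q t)) :=
    (hQ t ht).continuousAt.tendsto.comp Ll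
  have Lq' : Tendsto (fun ρ => deriv Y.Q (l ρ)) (𝓝[≠] 0) (𝓝 (deriv Y.Q t)) :=
    (hQ.deriv t ht).continuousAt.tendsto.comp Ll
  have Lru : Tendsto (fun ρ => ρ * uu ρ) (𝓝[≠] 0) (𝓝 0) := by simpa using hid.mul Lu
  have Lrv : Tendsto (fun ρ => -(ρ * vv ρ)) (𝓝[≠] 0) (𝓝 0) := by simpa using (hid.mul Lv).neg
  -- remainders
  set Ts : ℂ → ℂ → ℂ := fun ρ x => x - Y.Q (l ρ) * x ^ 3 / 6 - deriv Y.Q (l ρ) * x ^ 4 / 12 with hTs
  set Tc : ℂ → ℂ → ℂ := fun ρ x => 1 - Y.Q (l ρ) * x ^ 2 / 2 - deriv Y.Q (l ρ) * x ^ 3 / 6 with hTc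
  have hrem : ∀ w : ℂ → ℂ, Tendsto w (𝓝[≠] 0) (𝓝 1) → ∀ σ : ℂ, ‖σ‖ = 1 →
      Tendsto (fun ρ => (Y.s (l ρ + σ * (ρ * w ρ)) (l ρ) - Ts ρ (σ * (ρ * w ρ))) / ρ ^ 4) (𝓝[≠] 0)
        (𝓝 0) ∧
      Tendsto (fun ρ => (Y.c (l ρ + σ * (ρ * w ρ)) (l ρ) - Tc ρ (σ * (ρ * w ρ))) / ρ ^ 3) (𝓝[≠] 0)
        (𝓝 0) := by
    intro w hw σ hσ
    have hne : ∀ᶠ ρ : ℂ in 𝓝[≠] 0, ρ ≠ 0 := eventually_mem_nhdsWithin
    have hlb : ∀ᶠ ρ : ℂ in 𝓝[≠] 0, l ρ ∈ ball t r := Ll.eventually (ball_mem_nhds t hr)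
    have hx : Tendsto (fun ρ => σ * (ρ * w ρ)) (𝓝[≠] 0) (𝓝 0) := by
      simpa using (hid.mul hw).const_mul σ
    have hxb : ∀ᶠ ρ : ℂ in 𝓝[≠] 0, σ * (ρ * w ρ) ∈ ball (0:ℂ) r :=
      hx.eventually (ball_mem_nhds 0 hr)
    have hnw : ∀ᶠ ρ : ℂ in 𝓝[≠] 0, ‖w ρ‖ < 2 := by
      have h1 := hw.norm
      rw [norm_one] at h1
      exact h1.eventually (gt_mem_nhds one_lt_two)
    have hz : Tendsto (fun ρ : ℂ => C * 32 * ‖ρ‖) (𝓝[≠] 0) (𝓝 0) := by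
      have := hid.norm.const_mul (C * 32)
      simpa using this
    constructor
    · refine squeeze_zero_norm' ?_ hz
      filter_upwards [hne, hlb, hxb, hnw] with ρ h0 h1 h2 h3
      have h4 := (hexp _ h1 _ h2).1
      have h5 : 0 < ‖ρ‖ := norm_pos_iff.2 h0
      rw [norm_div, norm_pow, div_le_iff₀ (by positivity)]
      refine h4.trans ?_
      rw [norm_mul, hσ, one_mul, norm_mul, mul_pow]
      have h6 : ‖w ρ‖ ^ 5 ≤ 2 ^ 5 := pow_le_pow_left₀ (norm_nonneg _) h3.le 5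
      calc C * (‖ρ‖ ^ 5 * ‖w ρ‖ ^ 5) ≤ C * (‖ρ‖ ^ 5 * 2 ^ 5) := by gcongr
        _ = C * 32 * ‖ρ‖ * ‖ρ‖ ^ 4 := by ring
    · refine squeeze_zero_norm' ?_ hz
      filter_upwards [hne, hlb, hxb, hnw] with ρ h0 h1 h2 h3
      have h4 := (hexp _ h1 _ h2).2
      have h5 : 0 < ‖ρ‖ := norm_pos_iff.2 h0
      rw [norm_div, norm_pow, div_le_iff₀ (by positivity)]
      refine h4.trans ?_
      rw [norm_mul, hσ, one_mul, norm_mul, mul_pow]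
      have h6 : ‖w ρ‖ ^ 4 ≤ 2 ^ 4 := pow_le_pow_left₀ (norm_nonneg _) h3.le 4
      calc C * (‖ρ‖ ^ 4 * ‖w ρ‖ ^ 4) ≤ C * (‖ρ‖ ^ 4 * 2 ^ 4) := by gcongr
        _ ≤ C * (‖ρ‖ ^ 4 * 32) := by
          have : 0 ≤ ‖ρ‖ ^ 4 := by positivity
          gcongr
          norm_num
        _ = C * 32 * ‖ρ‖ * ‖ρ‖ ^ 3 := by ring
  obtain ⟨Su, Cu⟩ := hrem uu Lu 1 (by simp)
  obtain ⟨Sv, Cv⟩ := hrem vv Lv (-1) (by simp)
  simp only [one_mul, neg_mul] at Su Cu Sv Cv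
  set su : ℂ → ℂ := fun ρ => (Y.s (l ρ + ρ * uu ρ) (l ρ) - Ts ρ (ρ * uu ρ)) / ρ ^ 4 with hsu
  set cu : ℂ → ℂ := fun ρ => (Y.c (l ρ + ρ * uu ρ) (l ρ) - Tc ρ (ρ * uu ρ)) / ρ ^ 3 with hcu
  set sv : ℂ → ℂ := fun ρ => (Y.s (l ρ + -(ρ * vv ρ)) (l ρ) - Ts ρ (-(ρ * vv ρ))) / ρ ^ 4 with hsv
  set cv : ℂ → ℂ := fun ρ => (Y.c (l ρ + -(ρ * vv ρ)) (l ρ) - Tc ρ (-(ρ * vv ρ))) / ρ ^ 3 with hcv
  -- the polynomial
  set P : ℂ → ℂ := fun ρ =>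
    e ρ * (1 - Y.Q (l ρ) / 6 * ((ρ * uu ρ) ^ 2 - (ρ * uu ρ) * (-(ρ * vv ρ)) + (-(ρ * vv ρ)) ^ 2) -
      Y.Q (l ρ) / 2 * ((ρ * uu ρ) * (-(ρ * vv ρ))) +
      Y.Q (l ρ) ^ 2 / 12 * ((ρ * uu ρ) ^ 2 * (-(ρ * vv ρ)) ^ 2) +
      deriv Y.Q (l ρ) ^ 2 / 72 * ((ρ * uu ρ) ^ 3 * (-(ρ * vv ρ)) ^ 3)) -
    deriv Y.Q (l ρ) / 12 * (uu ρ ^ 4 + vv ρ ^ 4) +
    Y.Q (l ρ) * deriv Y.Q (l ρ) / 24 * (uu ρ ^ 2 * vv ρ ^ 2 * ((ρ * uu ρ) ^ 2 + (-(ρ * vv ρ)) ^ 2)) +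
    deriv Y.Q (l ρ) / 6 * (uu ρ * vv ρ * (uu ρ ^ 2 + vv ρ ^ 2)) -
    Y.Q (l ρ) * deriv Y.Q (l ρ) / 18 * (ρ ^ 2 * (uu ρ ^ 3 * vv ρ ^ 3)) +
    (sv ρ * Tc ρ (ρ * uu ρ) + cu ρ * (-vv ρ + Y.Q (l ρ) * (ρ ^ 2 * vv ρ ^ 3) / 6 -
      deriv Y.Q (l ρ) * (ρ ^ 3 * vv ρ ^ 4) / 12 + ρ ^ 3 * sv ρ)) +
    (su ρ * Tc ρ (-(ρ * vv ρ)) + cv ρ * (uu ρ - Y.Q (l ρ) * (ρ ^ 2 * uu ρ ^ 3) / 6 -
      deriv Y.Q (l ρ) * (ρ ^ 3 * uu ρ ^ 4) / 12 + ρ ^ 3 * su ρ)) with hP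
  have hP0 : ∀ᶠ ρ : ℂ in 𝓝[≠] 0, P ρ = 0 := by
    have hne : ∀ᶠ ρ : ℂ in 𝓝[≠] 0, ρ ≠ 0 := eventually_mem_nhdsWithin
    filter_upwards [hne, hn] with ρ h0 h1
    have e1 : t + ρ + ρ ^ 2 * B (t + ρ, ρ) = l ρ + ρ * uu ρ := by
      simp only [hl, huu, hbp]
      ring
    have e2 : t - ρ + ρ ^ 2 * B (t - ρ, ρ) = l ρ + -(ρ * vv ρ) := by
      simp only [hl, hvv, hbm]
      ring
    have h2 : Y.c (l ρ + ρ * uu ρ) (l ρ) * Y.s (l ρ + -(ρ * vv ρ)) (l ρ) +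
        Y.c (l ρ + -(ρ * vv ρ)) (l ρ) * Y.s (l ρ + ρ * uu ρ) (l ρ) = 0 := by
      rw [e1, e2] at h1
      exact h1
    have s1 : Y.s (l ρ + ρ * uu ρ) (l ρ) = Ts ρ (ρ * uu ρ) + ρ ^ 4 * su ρ := by
      simp only [hsu]
      field_simp
      ring
    have s2 : Y.s (l ρ + -(ρ * vv ρ)) (l ρ) = Ts ρ (-(ρ * vv ρ)) + ρ ^ 4 * sv ρ := by
      simp only [hsv]
      field_simp
      ring
    have c1 : Y.c (l ρ + ρ * uu ρ) (l ρ) = Tc ρ (ρ * uu ρ) + ρ ^ 3 * cu ρ := by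
      simp only [hcu]
      field_simp
      ring
    have c2 : Y.c (l ρ + -(ρ * vv ρ)) (l ρ) = Tc ρ (-(ρ * vv ρ)) + ρ ^ 3 * cv ρ := by
      simp only [hcv]
      field_simp
      ring
    have h3 : ρ * uu ρ - ρ * vv ρ = ρ ^ 4 * e ρ := by
      simp only [huu, hvv, hbp, hbm, he]
      field_simp
      ring
    rw [s1, s2, c1, c2] at h2
    have h4 : ρ ^ 4 * P ρ = 0 := by
      simp only [hP, hTs, hTc] at h2 ⊢
      generalize su ρ = a at *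
      generalize sv ρ = b at *
      generalize cu ρ = a' at *
      generalize cv ρ = b' at *
      generalize uu ρ = u at *
      generalize vv ρ = v at *
      generalize e ρ = w at *
      generalize Y.Q (l ρ) = q at *
      generalize deriv Y.Q (l ρ) = q' at *
      linear_combination h2 - (1 - q / 6 * ((ρ * u) ^ 2 - (ρ * u) * (-(ρ * v)) + (-(ρ * v)) ^ 2) -
        q / 2 * ((ρ * u) * (-(ρ * v))) + q ^ 2 / 12 * ((ρ * u) ^ 2 * (-(ρ * v)) ^ 2) +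
        q' ^ 2 / 72 * ((ρ * u) ^ 3 * (-(ρ * v)) ^ 3)) * h3
    exact (mul_eq_zero.1 h4).resolve_left (pow_ne_zero 4 h0)
  have hPl : Tendsto P (𝓝[≠] 0) (𝓝 (β + deriv Y.Q t / 6)) := by
    have LTc1 : Tendsto (fun ρ => Tc ρ (ρ * uu ρ)) (𝓝[≠] 0) (𝓝 1) := by
      have := ((((Lq.mul (Lru.pow 2)).div_const 2)).const_sub 1).sub
        ((Lq'.mul (Lru.pow 3)).div_const 6)
      simpa [hTc] using this
    have LTc2 : Tendsto (fun ρ => Tc ρ (-(ρ * vv ρ))) (𝓝[≠] 0) (𝓝 1) := by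
      have := ((((Lq.mul (Lrv.pow 2)).div_const 2)).const_sub 1).sub
        ((Lq'.mul (Lrv.pow 3)).div_const 6)
      simpa only [hTc, ne_eq, OfNat.ofNat_ne_zero, not_false_eq_true, zero_pow, mul_zero,
        zero_div, sub_zero] using this
    have A1 := ((((Lq.div_const 6).mul (((Lru.pow 2).sub (Lru.mul Lrv)).add (Lrv.pow 2))).const_sub
      1).sub ((Lq.div_const 2).mul (Lru.mul Lrv))).add
      (((Lq.pow 2).div_const 12).mul ((Lru.pow 2).mul (Lrv.pow 2)))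
    have A2 := A1.add (((Lq'.pow 2).div_const 72).mul ((Lru.pow 3).mul (Lrv.pow 3)))
    have A3 := (Le.mul A2).sub ((Lq'.div_const 12).mul ((Lu.pow 4).add (Lv.pow 4)))
    have A4 := A3.add (((Lq.mul Lq').div_const 24).mul
      (((Lu.pow 2).mul (Lv.pow 2)).mul ((Lru.pow 2).add (Lrv.pow 2))))
    have A5 := A4.add ((Lq'.div_const 6).mul ((Lu.mul Lv).mul ((Lu.pow 2).add (Lv.pow 2))))
    have A6 := A5.sub (((Lq.mul Lq').div_const 18).mul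
      ((hid.pow 2).mul ((Lu.pow 3).mul (Lv.pow 3))))
    have A7 := A6.add ((Sv.mul LTc1).add (Cu.mul (((Lv.neg.add
      ((Lq.mul ((hid.pow 2).mul (Lv.pow 3))).div_const 6)).sub
      ((Lq'.mul ((hid.pow 3).mul (Lv.pow 4))).div_const 12)).add ((hid.pow 3).mul Sv))))
    have A8 := A7.add ((Su.mul LTc2).add (Cv.mul (((Lu.sub
      ((Lq.mul ((hid.pow 2).mul (Lu.pow 3))).div_const 6)).sub
      ((Lq'.mul ((hid.pow 3).mul (Lu.pow 4))).div_const 12)).add ((hid.pow 3).mul Su))))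
    have e9 : ∀ x y : ℂ, x = y → Tendsto P (𝓝[≠] 0) (𝓝 x) → Tendsto P (𝓝[≠] 0) (𝓝 y) := by
      rintro x y rfl h
      exact h
    exact e9 _ _ (by ring) A8
  have hlim0 : Tendsto P (𝓝[≠] 0) (𝓝 0) := by
    refine Tendsto.congr' ?_ tendsto_const_nhds
    filter_upwards [hP0] with ρ h
    exact h.symm
  have := tendsto_nhds_unique hPl hlim0
  linear_combination this

end Pool.Agent.MP_ae5b4e_an_M0
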